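import Pool.Agent.N207.AX.Conj
import Pool.Agent.N207.AX.Gel

/-!
# Transcendence bases of fields of analytic functions

If `n` among finitely many analytic functions are independent over the rational functions, and all are algebraic over
`n` others among them, then these are independent, too.
-/

set_option autoImplicit false
set_option linter.unusedSectionVars false

namespace Pool.Agent.N207.ZG

open Pool.Agent.N207.AX

variable {X : Type} [Fintype X]

/-- the value at `z` of the coefficients -/
noncomputable def sp {n : ℕ} (z : X → ℂ) (a : Fin n → ℂ) :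
    MvPolynomial (Fin n) (MvPolynomial X ℂ) →+* ℂ :=
  MvPolynomial.eval₂Hom (MvPolynomial.eval z) a

theorem basis {N : Type} {n : ℕ} {U : Set (X → ℂ)} (hU : IsOpen U) (hc : IsPreconnected U)
    (hne : U.Nonempty) {f : N → (X → ℂ) → ℂ} (hf : ∀ i, AnalyticOnNhd ℂ (f i) U) {e : Fin n → N}
    (hI : Ind U fun k => f (e k)) {b : Fin n → N}
    (hb : ∀ i, ∃ Q : Polynomial (MvPolynomial (Fin n) (MvPolynomial X ℂ)),
      (∃ z ∈ U, Q.map (sp z fun k => f (b k) z) ≠ 0) ∧
      ∀ z ∈ U, Q.eval₂ (sp z fun k => f (b k) z) (f i z) = 0) :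
    Ind U fun k => f (b k) := by
  classical
  let _ := fnAlg U
  let F : N → U → ℂ := fun i z => f i z
  let A : Subalgebra (MvPolynomial X ℂ) (U → ℂ) := Algebra.adjoin (MvPolynomial X ℂ) (Set.range F)
  have halg : ∀ (r : MvPolynomial X ℂ) (z : U), algebraMap (MvPolynomial X ℂ) (U → ℂ) r z =
      MvPolynomial.eval (z : X → ℂ) r := fun r z => rfl
  -- the elements are analytic
  have han : ∀ a ∈ A, ∃ g : (X → ℂ) → ℂ, AnalyticOnNhd ℂ g U ∧ ∀ z : U, a z = g z := by
    intro a ha
    induction ha using Algebra.adjoin_induction with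
    | mem x hx =>
      obtain ⟨i, rfl⟩ := hx
      exact ⟨f i, hf i, fun z => rfl⟩
    | algebraMap r =>
      exact ⟨fun z => MvPolynomial.eval z r, (AnalyticOnNhd.eval_mvPolynomial _).mono (Set.subset_univ _),
        fun z => rfl⟩
    | add x y _ _ h1 h2 =>
      obtain ⟨g, hg, hg'⟩ := h1
      obtain ⟨g', hg1, hg1'⟩ := h2
      exact ⟨g + g', hg.add hg1, fun z => by rw [Pi.add_apply, Pi.add_apply, hg', hg1']⟩
    | mul x y _ _ h1 h2 =>
      obtain ⟨g, hg, hg'⟩ := h1
      obtain ⟨g', hg1, hg1'⟩ := h2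
      exact ⟨g * g', hg.mul hg1, fun z => by rw [Pi.mul_apply, Pi.mul_apply, hg', hg1']⟩
  have : NoZeroDivisors A := by
    constructor
    intro a a' h0
    obtain ⟨g, hg, hg'⟩ := han a.1 a.2
    obtain ⟨g', hg1, hg1'⟩ := han a'.1 a'.2
    by_cases h1 : a = 0
    · exact Or.inl h1
    right
    have h2 : ∃ z : U, a.1 z ≠ 0 := by
      by_contra hcon
      push Not at hcon
      exact h1 (Subtype.ext (funext hcon))
    obtain ⟨z, hz⟩ := h2
    have h3 : ∀ᶠ w in nhds (z : X → ℂ), g w ≠ 0 :=
      (hg z z.2).continuousAt.eventually_ne (by rw [← hg']; exact hz)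
    have h4 := hg1.eqOn_zero_of_preconnected_of_eventuallyEq_zero hc z.2 (by
      filter_upwards [h3, hU.mem_nhds z.2] with w hw hwU
      have h5 := congrArg (fun x : A => x.1 ⟨w, hwU⟩) h0
      have h6 : a.1 ⟨w, hwU⟩ * a'.1 ⟨w, hwU⟩ = 0 := h5
      rw [hg', hg1'] at h6
      exact (mul_eq_zero.1 h6).resolve_left hw)
    refine Subtype.ext (funext fun w => ?_)
    rw [hg1']
    exact h4 w.2
  obtain ⟨x0, hx0⟩ := hne
  have : Nontrivial A := by
    refine ⟨0, 1, fun h => ?_⟩
    have h1 := congrArg (fun x : A => x.1 ⟨x0, hx0⟩) h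
    exact zero_ne_one h1
  have : IsDomain A := NoZeroDivisors.to_isDomain A
  have : FaithfulSMul (MvPolynomial X ℂ) A := by
    rw [faithfulSMul_iff_algebraMap_injective, injective_iff_map_eq_zero]
    intro r hr
    have h1 : ∀ z ∈ U, MvPolynomial.eval z r = 0 := by
      intro z hz
      have h2 := congrArg (fun x : A => x.1 ⟨z, hz⟩) hr
      exact h2
    have han' : AnalyticOnNhd ℂ (fun z : X → ℂ => MvPolynomial.eval z r) Set.univ :=
      AnalyticOnNhd.eval_mvPolynomial _
    have h2 := han'.eqOn_zero_of_preconnected_of_eventuallyEq_zero isPreconnected_univ (Set.mem_univ x0)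
      (by filter_upwards [hU.mem_nhds hx0] with z hz using h1 z hz)
    exact MvPolynomial.funext fun z => by
      rw [map_zero]
      exact h2 (Set.mem_univ z)
  let G : N → A := fun i => ⟨F i, Algebra.subset_adjoin ⟨i, rfl⟩⟩
  let ev : U → A →+* ℂ := fun z => (Pi.evalRingHom (fun _ : U => ℂ) z).comp A.val.toRingHom
  have hev : ∀ (c : Fin n → N) (p : MvPolynomial (Fin n) (MvPolynomial X ℂ)) (z : U),
      ev z (MvPolynomial.aeval (fun k => G (c k)) p) = sp (z : X → ℂ) (fun k => f (c k) z) p := by
    intro c p z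
    have h1 : (ev z).comp (MvPolynomial.aeval (fun k => G (c k)) :
        MvPolynomial (Fin n) (MvPolynomial X ℂ) →ₐ[MvPolynomial X ℂ] A).toRingHom =
        sp (z : X → ℂ) (fun k => f (c k) z) := by
      refine MvPolynomial.ringHom_ext (fun r => ?_) fun k => ?_
      · simp only [sp, RingHom.comp_apply, MvPolynomial.eval₂Hom_C]
        have h2 : (MvPolynomial.aeval (fun k => G (c k)) :
          MvPolynomial (Fin n) (MvPolynomial X ℂ) →ₐ[MvPolynomial X ℂ] A).toRingHom (MvPolynomial.C r) =
          algebraMap (MvPolynomial X ℂ) A r := MvPolynomial.algHom_C _ r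
        rw [h2]
        rfl
      · simp only [sp, RingHom.comp_apply, MvPolynomial.eval₂Hom_X']
        have h2 : (MvPolynomial.aeval (fun k => G (c k)) :
          MvPolynomial (Fin n) (MvPolynomial X ℂ) →ₐ[MvPolynomial X ℂ] A).toRingHom (MvPolynomial.X k) =
          G (c k) := MvPolynomial.aeval_X _ k
        rw [h2]
        rfl
    exact RingHom.congr_fun h1 p
  have hext : ∀ a : A, (∀ z, ev z a = 0) → a = 0 := fun a ha => Subtype.ext (funext fun z => ha z)
  have hiff : ∀ c : Fin n → N, AlgebraicIndependent (MvPolynomial X ℂ) (fun k => G (c k)) ↔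
      Ind U fun k => f (c k) := by
    intro c
    rw [algebraicIndependent_iff]
    constructor
    · intro h p hp
      refine h p (hext _ fun z => ?_)
      rw [hev]
      exact hp z z.2
    · intro h p hp
      refine h p fun z hz => ?_
      have h1 := hev c p ⟨z, hz⟩
      rw [hp, map_zero] at h1
      exact h1.symm
  have hE := (hiff e).2 hI
  have hle : Cardinal.mk (Fin n) ≤ Algebra.trdeg (MvPolynomial X ℂ) A := hE.cardinalMk_le_trdeg
  let S : Subalgebra (MvPolynomial X ℂ) A := Algebra.adjoin (MvPolynomial X ℂ) (Set.range fun k => G (b k))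
  have hGS : ∀ i, IsAlgebraic S (G i) := by
    intro i
    obtain ⟨Q, ⟨z, hz, hz0⟩, hQ⟩ := hb i
    let φ : MvPolynomial (Fin n) (MvPolynomial X ℂ) →ₐ[MvPolynomial X ℂ] S :=
      MvPolynomial.aeval fun k => (⟨G (b k), Algebra.subset_adjoin ⟨k, rfl⟩⟩ : S)
    have hφ : ∀ p, ((φ p : S) : A) = MvPolynomial.aeval (fun k => G (b k)) p := by
      intro p
      have h1 : S.val.comp φ = MvPolynomial.aeval (fun k => G (b k)) := by
        refine MvPolynomial.algHom_ext fun k => ?_
        simp [φ]
      exact AlgHom.congr_fun h1 p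
    have hφe : ∀ z : U, ((ev z).comp S.val.toRingHom).comp φ.toRingHom = sp (z : X → ℂ) (fun k => f (b k) z) := by
      intro z
      refine RingHom.ext fun p => ?_
      have h1 := hev b p z
      rw [← hφ p] at h1
      exact h1
    refine ⟨Q.map φ.toRingHom, fun h0 => hz0 ?_, hext _ fun w => ?_⟩
    · have h1 := congrArg (Polynomial.map ((ev ⟨z, hz⟩).comp S.val.toRingHom)) h0
      rw [Polynomial.map_map, hφe, Polynomial.map_zero] at h1
      exact h1
    · have h1 : (Polynomial.aeval (G i)) (Q.map φ.toRingHom) =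
          Polynomial.eval₂ (S.val.toRingHom) (G i) (Q.map φ.toRingHom) := rfl
      rw [h1, Polynomial.hom_eval₂, Polynomial.eval₂_map, hφe]
      exact hQ w w.2
  have : Algebra.IsAlgebraic S A := by
    constructor
    rintro ⟨a, ha⟩
    induction ha using Algebra.adjoin_induction with
    | mem x hx =>
      obtain ⟨i, rfl⟩ := hx
      exact hGS i
    | algebraMap r =>
      have h1 : (⟨algebraMap (MvPolynomial X ℂ) (U → ℂ) r, A.algebraMap_mem r⟩ : A) =
          algebraMap S A (algebraMap (MvPolynomial X ℂ) S r) := rfl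
      rw [h1]
      exact isAlgebraic_algebraMap _
    | add x y hx hy h1 h2 =>
      exact h1.add h2
    | mul x y hx hy h1 h2 =>
      exact h1.mul h2
  have h1 := Algebra.IsAlgebraic.isTranscendenceBasis_of_le_trdeg_of_finite (MvPolynomial X ℂ)
    (fun k => G (b k)) hle
  exact (hiff b).1 h1.1

end Pool.Agent.N207.ZG
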